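import Mathlib
import Pool.Agent.N709.UM.Main3

set_option autoImplicit false

/-!
MP_c4a55f_al, Q1 (partial): the product of an arbitrary family of minimal topological groups is
minimal if every factor is of one of the following kinds: locally compact and second countable;
second countable, Raikov complete and non-archimedean; more generally second countable, Raikov
complete and with arbitrarily small subgroups `U` whose coset space is locally compact; with compact
centre `Z` and minimal quotient by `Z`.
-/

open Topology

namespace Pool.Agent.Results.MP_c4a55f_al.PolishFactors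

universe u v

/-- A Hausdorff topological group `(G, t)` is minimal if every Hausdorff group topology `s` on `G`
which is coarser than `t` (in Lean: `t ≤ s`) is equal to `t`. -/
structure MinimalGroup (G : Type u) [Group G] [t : TopologicalSpace G] : Prop where
  isTopologicalGroup : IsTopologicalGroup G
  t2 : T2Space G
  minimal : ∀ s : TopologicalSpace G, @IsTopologicalGroup G s _ → @T2Space G s → t ≤ s → s = t

/-- Raikov completeness: every filter that is Cauchy for the two-sided uniformity, with basic
entourages `{(x, y) | x⁻¹ y ∈ U and y x⁻¹ ∈ U}`, converges. -/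
def RaikovComplete (G : Type u) [Group G] [TopologicalSpace G] : Prop :=
  ∀ F : Filter G, F.NeBot →
    (∀ U ∈ 𝓝 (1 : G), ∃ A ∈ F, ∀ x ∈ A, ∀ y ∈ A, x⁻¹ * y ∈ U ∧ y * x⁻¹ ∈ U) →
    ∃ z : G, F ≤ 𝓝 z

/-- The four kinds of factors. -/
inductive Admissible (G : Type u) [Group G] [TopologicalSpace G] : Prop
  | locallyCompact : LocallyCompactSpace G → SecondCountableTopology G → Admissible G
  | nonarchimedean : SecondCountableTopology G → RaikovComplete G → NonarchimedeanGroup G →
      Admissible G
  | smallSubgroups : SecondCountableTopology G → RaikovComplete G →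
      (∀ V ∈ 𝓝 (1 : G), ∃ U : Subgroup G, (U : Set G) ⊆ V ∧ LocallyCompactSpace (G ⧸ U)) →
      Admissible G
  | compactCentre : IsCompact (Subgroup.center G : Set G) →
      MinimalGroup (G ⧸ Subgroup.center G) → Admissible G

/-- Arbitrary products of minimal groups, each of one of the four kinds, are minimal. -/
theorem result {I : Type v} {G : I → Type u} [∀ i, Group (G i)] [∀ i, TopologicalSpace (G i)]
    (hmin : ∀ i, MinimalGroup (G i)) (h : ∀ i, Admissible (G i)) : MinimalGroup (∀ i, G i) := by
  have h1 : ∀ i, IsTopologicalGroup (G i) := fun i => (hmin i).isTopologicalGroup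
  have h2 : ∀ i, T2Space (G i) := fun i => (hmin i).t2
  refine ⟨inferInstance, inferInstance, ?_⟩
  refine Pool.Agent.N709.UM.prod_min2 I G (fun i => (hmin i).minimal) ?_
  intro i
  rcases h i with ⟨hlc, hsc⟩ | ⟨hsc, hrc, hna⟩ | ⟨hsc, hrc, hss⟩ | ⟨hc, hq⟩
  · exact Or.inl (Pool.Agent.N709.UM.star (G i) (hmin i).minimal)
  · refine Or.inr (Or.inr (Pool.Agent.N709.UM.star2 (G i) hrc ?_ (hmin i).minimal))
    intro U hU
    obtain ⟨V, hV⟩ := hna.is_nonarchimedean U hU
    exact ⟨V.toSubgroup, V.isOpen', hV⟩
  · exact Or.inr (Or.inr (Pool.Agent.N709.UM.star3 (G i) hrc hss (hmin i).minimal))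
  · exact Or.inr (Or.inl ⟨hc, hq.minimal⟩)

end Pool.Agent.Results.MP_c4a55f_al.PolishFactors
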